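import Pool.Agent.T9h57.HS.Cor
import Pool.Agent.Results.MP_03df5c_nt.AlmostAllArguments

/-!
# MP_03df5c_nt: relations between real multiple zeta values off few hyperplanes hold `p`-adically and identically

A pattern in `k` variables is a nonempty list of letters `b + u_1 s_1 + ... + u_k s_k`; at a tuple `s` of natural numbers
it gives an index. The first letters may be constant, of arbitrary weight, such as in `ζ(5, 1, s_1, 3, s_1 + s_2)`. The
fronts of the pattern are the nonempty initial segments of the list of its constant first letters. A family `Z` is a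
function from the indices to a commutative `ℚ`-algebra with the stuffle product, for example the `p`-adic multiple zeta
values for a prime `p`, or the real ones.

Let `w_1, ..., w_r` be admissible patterns and `D` a degree. The tuple `s` is exceptional for `Z` and `H` if there is a
polynomial relation of degree at most `D` with integer coefficients at most `H` between the real multiple zeta values of the
patterns AT `s` which fails for `Z` at SOME tuple `s'` of numbers `s'_j ≥ 2`: `P(ζ(w_1(s)), ...) = 0` and
`P(Z(w_1(s')), ...) ≠ 0`. So if `s` is not exceptional then every such relation at `s` holds for `Z` identically, at all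
tuples at once.

Theorem. For all `κ` there are `K` and `Q` such that for all `C` and all large `N` ALL the exceptional tuples in
`[N, κ N] ^ k`, for `H = C ^ N` and all families at once, lie on at most `K` hyperplanes `c_1 s_1 + ... + c_k s_k = b` with
integers `c_j`, not all zero, `|c_j| ≤ Q`:

(1) for the families for which the relations between the real multiple zeta values of the (finitely many) fronts hold. This
contains the real multiple zeta values: a relation between them at a single tuple off the hyperplanes holds at all tuples;

(2) if all constant first letters are equal and even, in each pattern, for all families with `Z(2 m) = 0`, `m ≥ 1`: for all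
primes `p` at once.

Consequently (`Thin`):

* for ALL finite sets `F_1, ..., F_k` of integers in `[N, κ N]`, however thin, at most `K ∑_i ∏_{j ≠ i} |F_j|` of the tuples
  in `F_1 × ... × F_k` are exceptional;
* for EVERY real vector `ξ` with positive coordinates which are linearly independent over `ℚ`, such as `(1, √2, √3)` or
  `(1, π)`, there are `K` and `δ > 0` such that for all `C` and all large `X` there are at most `K` real numbers `t` with the
  following property: if `N ∈ [X, κ X]` and there is an exceptional tuple `s` with `|s_j - N ξ_j| ≤ R` for all `j`,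
  `R ≤ δ X`, then `|N - t| ≤ K R` for one of the `t`. So for `R = 1` all but a bounded number of the `N ∈ [X, κ X]` have no
  exceptional tuple near `N ξ`.

(3) Let `Z` be a family in a domain, with `Z(s) ≠ 0` for all large odd `s` (this holds for the `p`-adic multiple zeta
values). Then the following are equivalent: (a) all polynomial relations between real multiple zeta values hold for `Z` (the
question for `p`); (b) the exceptional tuples of `Z` are thin, for all patterns and `D`; (c) for all patterns in one variable
with exactly one nonconstant letter `s + b`, and for each `B`, there are arbitrarily large odd `s` for which all LINEAR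
relations with integer coefficients at most `B` between the real multiple zeta values of the patterns at `s` hold for `Z`.

The starting file `AlmostAllArguments` on this page bounds the number of the tuples `s` in `[N, κ N] ^ k` for which a
relation at `s` fails for `Z` at `s` itself by `K N ^ (k - 1)`; this says nothing about their position or about other
tuples. The proof uses the elimination of the constants between several tuples in general position of `X90/DC` (starting
library): `3 ^ m` exceptional tuples cannot be in general position, hence all of them lie on few hyperplanes determined by a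
maximal system of exceptional tuples in general position. For the other tuples the relation is a consequence of the stuffle
product of the patterns (`T9h57/HS`).
-/

set_option autoImplicit false

namespace Pool.Agent.Results.MP_03df5c_nt.ExceptionalHyperplanes

open Pool.Agent.T9h57.HS
open Pool.Agent.X90.DC (fpx)
open Pool.Agent.X90.DB (Ad ix ex)
open Pool.Agent.Results.MP_03df5c_nt.AlmostAllArguments
  (Letter AdmissiblePattern Admissible EvenFront HasStuffle Transfers fronts Bad OneLargeArgument index mzv
    constantPart_eq mzv_fun rel_of st_iff index_ne fronts_even b_to_c c_to_a)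

/-- `s` is exceptional for the family `Z`: a polynomial relation of degree at most `D` with integer coefficients of
absolute value at most `H` between the real multiple zeta values of the patterns at `s` fails for `Z` at some tuple `s'`
of natural numbers at least two -/
def Exceptional {k r : ℕ} (w : Fin r → List (Letter k)) (D : ℕ) (H : ℝ) {A : Type} [CommRing A]
    (Z : List ℕ → A) (s : Fin k → ℕ) : Prop :=
  ∃ P : MvPolynomial (Fin r) ℤ, P.totalDegree ≤ D ∧ (∀ m, |((P.coeff m : ℤ) : ℝ)| ≤ H) ∧
    MvPolynomial.aeval (fun i => mzv (index s (w i))) P = 0 ∧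
    ∃ s' : Fin k → ℕ, (∀ j, 2 ≤ s' j) ∧ MvPolynomial.aeval (fun i => Z (index s' (w i))) P ≠ 0

/-- `s` is exceptional for one of the families `Z` with the stuffle product and the property `F` -/
def ExceptionalFor {k r : ℕ} (w : Fin r → List (Letter k)) (D : ℕ)
    (F : ∀ (A : Type) [CommRing A] [Algebra ℚ A], (List ℕ → A) → Prop) (H : ℝ) (s : Fin k → ℕ) : Prop :=
  ∃ (A : Type) (_ : CommRing A) (_ : Algebra ℚ A) (Z : List ℕ → A),
    HasStuffle Z ∧ F A Z ∧ Exceptional w D H Z s

/-- the tuples with the property `E` lie on few hyperplanes; there are few in every product set, and near every ray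
in the direction of a vector with coordinates which are linearly independent over `ℚ` -/
def Thin {k : ℕ} (E : ℝ → (Fin k → ℕ) → Prop) : Prop :=
  (∀ κ : ℕ, OnHyperplanes κ E) ∧ (∀ κ : ℕ, FewInProducts κ E) ∧
    ∀ ξ : Fin k → ℝ, (∀ j, 0 < ξ j) → LinearIndependent ℚ ξ → FewNear E ξ

theorem thin_of {k : ℕ} {E : ℝ → (Fin k → ℕ) → Prop} (h : ∀ κ, OnHyperplanes κ E)
    (hE : ∀ H H' s, H ≤ H' → E H s → E H' s) : Thin E :=
  ⟨h, fun κ => (h κ).products, fun ξ hξ hli => OnHyperplanes.near h hE ξ hξ hli⟩

theorem exceptionalFor_mono {k r : ℕ} (w : Fin r → List (Letter k)) (D : ℕ)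
    (G : ∀ (A : Type) [CommRing A] [Algebra ℚ A], (List ℕ → A) → Prop) (H H' : ℝ) (s : Fin k → ℕ) (h : H ≤ H')
    (hs : ExceptionalFor w D G H s) : ExceptionalFor w D G H' s := by
  obtain ⟨A, i1, i2, Z, h1, h2, P, h3, h4, h5⟩ := hs
  exact ⟨A, i1, i2, Z, h1, h2, P, h3, fun m => (h4 m).trans h, h5⟩

theorem exceptional_mono {k r : ℕ} (w : Fin r → List (Letter k)) (D : ℕ) {A : Type} [CommRing A]
    (Z : List ℕ → A) (H H' : ℝ) (s : Fin k → ℕ) (h : H ≤ H') (hs : Exceptional w D H Z s) :
    Exceptional w D H' Z s := by
  obtain ⟨P, h3, h4, h5⟩ := hs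
  exact ⟨P, h3, fun m => (h4 m).trans h, h5⟩

/-- part (1) -/
theorem part1 {k r : ℕ} (w : Fin r → List (Letter k)) (hw : ∀ i, AdmissiblePattern (w i)) (D κ : ℕ) :
    OnHyperplanes κ (ExceptionalFor w D fun _ _ _ Z => Transfers (fronts w) Z) := by
  obtain ⟨K, Q, hK⟩ := gen2P 0 k r D w (fun i => (hw i).2) (fronts w)
    (fun i q hq hne => ⟨hne, i, by rw [constantPart_eq]; exact hq⟩) κ
  refine ⟨K, Q, fun C => ?_⟩
  obtain ⟨N₀, hN₀⟩ := hK C (fun i => i.elim0)
  refine ⟨N₀, fun N hN => ?_⟩
  let τ : Fin r → Fin 0 ⊕ Fin r := Sum.inr
  have h6 : ∀ (B : Type) [CommRing B] (x : Fin 0 → B) (v : Fin r → B) (P : MvPolynomial (Fin r) ℤ),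
      MvPolynomial.aeval (Sum.elim x v) (MvPolynomial.rename τ P) = MvPolynomial.aeval v P := by
    intro B _ x v P
    rw [MvPolynomial.aeval_rename]
    rfl
  obtain ⟨P, hP1, hP2, hP3⟩ := hN₀ N hN {s | (∀ j, N ≤ s j ∧ s j ≤ κ * N) ∧
      ExceptionalFor w D (fun _ _ _ Z => Transfers (fronts w) Z) (C ^ N) s} (by
    rintro s ⟨h1, A, i1, i2, Z, hZ, hF, P, h2, h3, h4, s', hs', h5⟩
    refine ⟨h1, MvPolynomial.rename τ P, (MvPolynomial.totalDegree_rename_le _ _).trans h2, fun m => ?_, ?_,
      fun h => h5 ?_⟩
    · by_cases hm : ∃ u, Finsupp.mapDomain τ u = m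
      · obtain ⟨u, rfl⟩ := hm
        rw [MvPolynomial.coeff_rename_mapDomain _ Sum.inr_injective]
        exact h3 u
      · rw [MvPolynomial.coeff_rename_eq_zero _ _ _ (fun u hu => absurd ⟨u, hu⟩ hm), Int.cast_zero, abs_zero]
        exact (abs_nonneg _).trans (h3 0)
    · rw [h6]
      have h7 := MvPolynomial.aeval_algebraMap_apply (A := ℝ) ℂ (fun i => mzv (index s (w i))) P
      rw [h4, map_zero] at h7
      rw [← h7, mzv_fun]
      rfl
    · have h8 := h A (fun i => i.elim0) Z (rel_of w Z hF _ _) ((st_iff Z).1 hZ) s' hs'
      rw [h6] at h8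
      have h9 : ∀ i, ex Z (ix s' (w i)) = Z (index s' (w i)) :=
        fun i => Pool.Agent.X90.DB.ex_ne Z (index_ne s' (hw i).1)
      simp only [h9] at h8
      exact h8)
  exact ⟨P, hP1, hP2, fun s hs hE => hP3 s ⟨hs, hE⟩⟩

/-- part (2) -/
theorem part2 {k r : ℕ} (w : Fin r → List (Letter k)) (hw : ∀ i, AdmissiblePattern (w i))
    (he : ∀ i, EvenFront (w i)) (D κ : ℕ) :
    OnHyperplanes κ (ExceptionalFor w D fun _ _ _ Z => ∀ m, 1 ≤ m → Z [2 * m] = 0) := by
  refine (part1 w hw D κ).mono fun H s => ?_
  rintro ⟨A, i1, i2, Z, hZ, h0, hB⟩
  refine ⟨A, i1, i2, Z, hZ, ?_, hB⟩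
  intro f hf
  rw [mzv_fun] at hf
  exact Pool.Agent.N734.MZ.even_transfer (fun u : {u : List ℕ // Admissible u ∧ u ∈ fronts w} => u.1)
    (fronts_even w he) Z ((st_iff Z).1 hZ) h0 f hf

theorem a_to_b {A : Type} [CommRing A] [Algebra ℚ A] (Z : List ℕ → A) (hZ : HasStuffle Z)
    (h : Transfers Set.univ Z) {k r : ℕ} (w : Fin r → List (Letter k)) (hw : ∀ i, AdmissiblePattern (w i)) (D κ : ℕ) :
    OnHyperplanes κ fun H s => Exceptional w D H Z s := by
  refine (part1 w hw D κ).mono fun H s hB => ?_
  refine ⟨A, inferInstance, inferInstance, Z, hZ, ?_, hB⟩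
  intro f hf
  let ρ : {u : List ℕ // Admissible u ∧ u ∈ fronts w} → {u : List ℕ // Admissible u ∧ u ∈ (Set.univ : Set (List ℕ))} :=
    fun u => ⟨u.1, u.2.1, trivial⟩
  have h1 := h (MvPolynomial.rename ρ f) (by
    rw [MvPolynomial.aeval_rename]
    exact hf)
  rw [MvPolynomial.aeval_rename] at h1
  exact h1

/-- statement (b): for all admissible patterns and all degrees the exceptional tuples of the family are thin -/
def ThinForAll {A : Type} [CommRing A] (Z : List ℕ → A) : Prop :=
  ∀ (k r : ℕ) (w : Fin r → List (Letter k)), (∀ i, AdmissiblePattern (w i)) → ∀ D : ℕ,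
    Thin fun H s => Exceptional w D H Z s

/-- **Theorem.** Let `w_1, ..., w_r` be admissible patterns in `k` variables and `D` a degree. (1) The tuples which are
exceptional for one of the families `Z` with the stuffle product for which the relations between the real multiple zeta
values of the fronts hold are thin: for all `κ` there are `K`, `Q` such that for all `C` and all large `N` the exceptional
tuples in `[N, κ N] ^ k`, for the height `C ^ N`, lie on at most `K` hyperplanes with integral normal vectors `c ≠ 0`,
`|c_j| ≤ Q`; hence there are few in every product set and near every ray whose direction has coordinates which are linearly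
independent over `ℚ`. (2) If the fronts are even, the same holds for the families with `Z(2 m) = 0` for all `m ≥ 1`.
(3) For a family `Z` with the stuffle product in a domain, with `Z(s) ≠ 0` for all large odd `s`, the following are
equivalent: all polynomial relations between real multiple zeta values hold for `Z`; for all patterns and `D` the
exceptional tuples of `Z` are thin; for all patterns with exactly one nonconstant letter `s + b` and all `B` there are
arbitrarily large odd `s` for which all linear relations with integer coefficients at most `B` between the real multiple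
zeta values of the patterns at `s` hold for `Z`. -/
theorem result :
    (∀ (k r : ℕ) (w : Fin r → List (Letter k)), (∀ i, AdmissiblePattern (w i)) → ∀ D : ℕ,
      Thin (ExceptionalFor w D fun _ _ _ Z => Transfers (fronts w) Z)) ∧
    (∀ (k r : ℕ) (w : Fin r → List (Letter k)), (∀ i, AdmissiblePattern (w i)) → (∀ i, EvenFront (w i)) →
      ∀ D : ℕ, Thin (ExceptionalFor w D fun _ _ _ Z => ∀ m, 1 ≤ m → Z [2 * m] = 0)) ∧
    ∀ (A : Type) [CommRing A] [IsDomain A] [Algebra ℚ A] (Z : List ℕ → A), HasStuffle Z →
      (∃ s₀, ∀ s, s₀ ≤ s → Odd s → Z [s] ≠ 0) →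
      (Transfers Set.univ Z ↔ ThinForAll Z) ∧ (ThinForAll Z ↔ OneLargeArgument Z) := by
  refine ⟨fun k r w hw D => thin_of (part1 w hw D) (exceptionalFor_mono w D _),
    fun k r w hw he D => thin_of (part2 w hw he D) (exceptionalFor_mono w D _), ?_⟩
  intro A _ _ _ Z hZ hs
  obtain ⟨s₀, hne⟩ := hs
  have hab : Transfers Set.univ Z → ThinForAll Z := fun h k r w hw D =>
    thin_of (a_to_b Z hZ h w hw D) (exceptional_mono w D Z)
  have hbc : ThinForAll Z → OneLargeArgument Z := by
    intro h
    refine b_to_c Z fun k r w hw D κ => ?_
    obtain ⟨K, hK⟩ := ((h k r w hw D).1 κ).few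
    refine ⟨K, fun C => ?_⟩
    obtain ⟨N₀, hN⟩ := hK C
    refine ⟨N₀ + 2, fun N hN' => (Set.ncard_le_ncard ?_ ?_).trans (hN N (by omega))⟩
    · rintro s ⟨h1, P, h2, h3, h4, h5⟩
      exact ⟨h1, P, h2, h3, h4, s, fun j => le_trans (by omega) (h1 j).1, h5⟩
    · refine (Set.Finite.pi' (t := fun _ : Fin k => Set.Icc N (κ * N)) fun _ => Set.finite_Icc _ _).subset ?_
      intro s hs j
      exact ⟨(hs.1 j).1, (hs.1 j).2⟩
  have hca : OneLargeArgument Z → Transfers Set.univ Z := fun h => c_to_a Z hZ s₀ hne h
  exact ⟨⟨hab, fun h => hca (hbc h)⟩, ⟨hbc, fun h => hab (hca h)⟩⟩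

end Pool.Agent.Results.MP_03df5c_nt.ExceptionalHyperplanes
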