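import Pool.Agent.T9h86.MZ.Lin
import Pool.Agent.Results.MP_03df5c_nt.AlmostAllArguments

/-!
# MP_03df5c_nt: relations between real multiple zeta values with arguments near the values of generic systems of linear forms
# hold `p`-adically

A pattern in `k` variables is a nonempty list of letters `b + u_1 s_1 + ... + u_k s_k`; at a tuple `s` of natural numbers
it gives an index. A family `Z` is a function from the indices to a commutative `ℚ`-algebra with the stuffle product, for
example the `p`-adic multiple zeta values for a prime `p`. The tuple `s` is bad for `Z` (and `D`, `H`) if a polynomial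
relation of degree at most `D` with integer coefficients at most `H` between the real multiple zeta values of the patterns at
`s` fails for `Z`.

Let `v_a`, `a` in a countable set, be vectors in `ℝ^n`, `O(X^(τ + ε))` of them of norm at most `X` for every `ε > 0`: for
instance the vectors `(b_1^(m_1), …, b_n^(m_n))`, `b_j > 1`, for all `m_1, …, m_n`, with `τ = 0`, or `(1, m, …, m^d)` with
`τ = 1 / d`. There is ONE set `E₀` of real matrices with `k` rows and `n` columns, of Hausdorff dimension at most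
`k (n - 1) + (k - 1 + τ) / (1 - θ)`, a null set if `τ + k θ < 1`, such that for all `α` outside `E₀`, for ALL admissible patterns
`w_1, …, w_r` in `k` variables and all `D`, `κ`, `C`, `c`: for all but finitely many `a`, NO tuple `s` of natural numbers with
`|s_l - (α v_a)_l| ≤ c |v_a|^θ` and `T ≤ s_l ≤ κ T` for all `l` is bad for `D` and `H = C ^ T`, for any family with
`Z(2 m) = 0`, `m ≥ 1` (so for all primes `p` at once), if the constant first letters of each pattern are equal and even, and,
for arbitrary patterns, for any family for which the relations between the real multiple zeta values of the fronts hold.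

For example, for almost all real numbers `x`, `y`, `z`, `t`: for all but finitely many pairs `(i, j)` the relations of bounded
degree with coefficients of exponential height between the real multiple zeta values of patterns such as `ζ(s, 2, t + s)` at
the integers `s`, `t` near `x 2^i + y 3^j`, `z 2^i + t 3^j` (with bounded quotient) hold for the `p`-adic ones.

The starting theorem `AlmostAllArguments` of this page (helper734) bounds the number of the bad tuples in `[N, κ N] ^ k` by
`K N ^ (k - 1)`, and `AlongRealTuples` treats the dilates `N ξ` of a generic vector, `N` in a thin set of integers (the case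
`n = 1`). The tool for linear forms is `Pool.Agent.N251.LF` (helper251).
-/

set_option autoImplicit false

namespace Pool.Agent.Results.MP_03df5c_nt.GenericLinearForms

open MeasureTheory
open Pool.Agent.N251.LF (Fam Sq)
open Pool.Agent.T9h86.MZ (NoneNear FewAll lin_many null_set)
open Pool.Agent.Results.MP_03df5c_nt.AlmostAllArguments
  (Letter AdmissiblePattern EvenFront Transfers fronts Bad BadFor HasStuffle part1 part2)

theorem badFor_mono {k r : ℕ} (w : Fin r → List (Letter k)) (D : ℕ)
    (G : ∀ (A : Type) [CommRing A] [Algebra ℚ A], (List ℕ → A) → Prop) (H H' : ℝ) (s : Fin k → ℕ) (h : H ≤ H')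
    (hs : BadFor w D G H s) : BadFor w D G H' s := by
  obtain ⟨A, i1, i2, Z, h1, h2, P, h3, h4, h5⟩ := hs
  exact ⟨A, i1, i2, Z, h1, h2, P, h3, fun m => (h4 m).trans h, h5⟩

/-- **Theorem.** Let `k ≥ 1` and let `v` be a family of vectors in `ℝ^n` with `O_ε(X^(τ + ε))` members of norm at most `X`
(`Fam v τ`), `τ ≥ 0`, `θ < 1`. There is a set `E₀` of real `k × n` matrices, of Hausdorff dimension at most
`k (n - 1) + (k - 1 + τ) / (1 - θ)`, of measure zero if `n ≥ 1` and `τ + k θ < 1`, such that for all `α` outside `E₀`, all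
admissible patterns `w_1, …, w_r` in `k` variables and all `D`: (1) for all `κ`, `C`, `c`, for all but finitely many `a`, no tuple
`s` within `c ‖v_a‖ ^ θ` of `α v_a` with `T ≤ s_l ≤ κ T`, `T ≥ 1`, is bad, for `D` and `H = C ^ T`, for a family `Z` with the
stuffle product for which the relations between the real multiple zeta values of the fronts hold; (2) if the constant first
letters of each pattern are equal and even, the same holds for the families with `Z(2 m) = 0` for all `m ≥ 1`. (3) Examples of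
`v`: `(1, m, …, m^d)` with `τ = 1 / d`; `(b_1^(m_1), …, b_n^(m_n))`, `b_j > 1`, with `τ = 0`; `(m_1^(a_1), …, m_n^(a_n))`,
`a_j > 0`, with `τ = ∑ 1 / a_j`; `(u_1(m_1), …, u_n(m_n))` for sequences of exponents `τ_j`, with `τ = ∑ τ_j`. -/
theorem result :
    (∀ k : ℕ, 1 ≤ k → ∀ (n : ℕ) (ι : Type) (v : ι → Fin n → ℝ) (τ θ : ℝ), Fam v τ → 0 ≤ τ → θ < 1 →
      ∃ E₀ : Set (Fin k × Fin n → ℝ),
        dimH E₀ ≤ ENNReal.ofReal ((k : ℝ) * ((n : ℝ) - 1) + ((k : ℝ) - 1 + τ) / (1 - θ)) ∧
        (1 ≤ n → τ + k * θ < 1 → volume E₀ = 0) ∧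
        ∀ α, α ∉ E₀ → ∀ (r : ℕ) (w : Fin r → List (Letter k)), (∀ i, AdmissiblePattern (w i)) → ∀ D : ℕ,
          NoneNear v θ (BadFor w D fun _ _ _ Z => Transfers (fronts w) Z) α ∧
          ((∀ i, EvenFront (w i)) → NoneNear v θ (BadFor w D fun _ _ _ Z => ∀ m, 1 ≤ m → Z [2 * m] = 0) α)) ∧
    (∀ d : ℕ, 1 ≤ d → Fam (fun (m : ℕ) (j : Fin (d + 1)) => (m : ℝ) ^ (j : ℕ)) (1 / d)) ∧
    (∀ (n : ℕ) (b : Fin n → ℝ), (∀ j, 1 < b j) → Fam (fun (m : Fin n → ℕ) (j : Fin n) => b j ^ m j) 0) ∧
    (∀ (n : ℕ) (a : Fin n → ℝ), (∀ j, 0 < a j) →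
      Fam (fun (m : Fin n → ℕ) (j : Fin n) => (m j : ℝ) ^ a j) (∑ j, 1 / a j)) ∧
    ∀ (n : ℕ) (u : Fin n → ℕ → ℝ) (τ : Fin n → ℝ), (∀ j, Sq (u j) (τ j)) →
      Fam (fun (m : Fin n → ℕ) (j : Fin n) => u j (m j)) (∑ j, τ j) := by
  refine ⟨fun k hk n ι v τ θ hv hτ hθ => ?_, Pool.Agent.N251.LF.examples⟩
  let I : Type := Σ r : ℕ, {w : Fin r → List (Letter k) // ∀ i, AdmissiblePattern (w i)} × ℕ
  obtain ⟨E₁, h1, h2⟩ := lin_many (I := I) hk
    (E := fun i => BadFor i.2.1.1 i.2.2 fun _ _ _ Z => Transfers (fronts i.2.1.1) Z)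
    (fun i H H' s => badFor_mono i.2.1.1 i.2.2 _ H H' s) (fun i κ => part1 i.2.1.1 i.2.1.2 i.2.2 κ) v hv hτ hθ
  let J : Type := Σ r : ℕ, {w : Fin r → List (Letter k) // (∀ i, AdmissiblePattern (w i)) ∧ ∀ i, EvenFront (w i)} × ℕ
  obtain ⟨E₂, h3, h4⟩ := lin_many (I := J) hk
    (E := fun i => BadFor i.2.1.1 i.2.2 fun _ _ _ Z => ∀ m, 1 ≤ m → Z [2 * m] = 0)
    (fun i H H' s => badFor_mono i.2.1.1 i.2.2 _ H H' s)
    (fun i κ => part2 i.2.1.1 i.2.1.2.1 i.2.1.2.2 i.2.2 κ) v hv hτ hθ
  have h5 : dimH (E₁ ∪ E₂) ≤ ENNReal.ofReal ((k : ℝ) * ((n : ℝ) - 1) + ((k : ℝ) - 1 + τ) / (1 - θ)) := by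
    rw [dimH_union]
    exact max_le h1 h3
  refine ⟨E₁ ∪ E₂, h5, fun hn hlt => null_set hk hn hθ hlt h5, fun α hα r w hw D => ⟨?_, fun he => ?_⟩⟩
  · exact h2 α (fun h => hα (Or.inl h)) ⟨r, ⟨w, hw⟩, D⟩
  · exact h4 α (fun h => hα (Or.inr h)) ⟨r, ⟨w, hw, he⟩, D⟩

end Pool.Agent.Results.MP_03df5c_nt.GenericLinearForms
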