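import Pool.Agent.T9h86.MZ.Sub
import Pool.Agent.Results.MP_03df5c_nt.AlmostAllArguments

/-!
# MP_03df5c_nt: relations between real multiple zeta values with arguments near the orders of subgroups of `F_p^*` hold
# `ℓ`-adically

A pattern in `k` variables is a nonempty list of letters `b + u_1 s_1 + ... + u_k s_k`; at a tuple `s` of natural numbers
it gives an index. A family `Z` is a function from the indices to a commutative `ℚ`-algebra with the stuffle product, for
example the `ℓ`-adic multiple zeta values for a prime `ℓ`. The tuple `s` is bad for `Z` (and `D`, `H`) if a polynomial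
relation of degree at most `D` with integer coefficients at most `H` between the real multiple zeta values of the patterns at
`s` fails for `Z`.

Let `G_1, …, G_k` be real sequences with steps bounded below by a positive constant and growth at most `v^d`, `θ ≥ 0`,
`β = d (k - 1) + k θ < k`, and `0 ≤ c < 1`. For all `k`-tuples of primes `p_i ≤ X` but `O(X^(k - η))`,
`η < (1 - c) (k - β) / 2`: for the orders `n_i` of ALL subgroups `H_i` of `F_{p_i}^*` which contain an integer `a_i`,
`2 ≤ a_i ≤ X^c` (for example the subgroups generated by such integers), NO tuple `s` of natural numbers with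
`|s_i - G_i n_i| ≤ n_i^θ` (so also the tuple `s = n` itself) and `T ≤ s_i ≤ κ T` is bad for `D` and `H = C ^ T`, for any
family with `Z(2 m) = 0`, `m ≥ 1` (so for all primes `ℓ` at once), if the constant first letters of each pattern are equal and
even, and, for arbitrary admissible patterns, for any family for which the relations between the real multiple zeta values of
the fronts hold.

The starting theorem `AlmostAllArguments` of this page (helper734) bounds the number of the bad tuples in `[N, κ N] ^ k` by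
`K N ^ (k - 1)`, all of which may be tuples of orders of subgroups, for many primes. The case `k = 1` of the tool
(`Pool.Agent.T9h59.OR`) is from helper59; here it is extended to tuples of primes: the primes `p ≤ X` with a given order `n` are
counted by the cofactors `(p - 1) / n` and by the prime factors of the numbers `a ^ n - 1`, the bad tuples in dyadic boxes.
-/

set_option autoImplicit false

namespace Pool.Agent.Results.MP_03df5c_nt.SubgroupOrders

open Pool.Agent.N733.TG (Expanding expanding_pow)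
open Pool.Agent.T9h59.OR (SubOrder subOrder_orderOf)
open Pool.Agent.T9h86.MZ (sub_powers)
open Pool.Agent.Results.MP_03df5c_nt.AlmostAllArguments
  (Letter AdmissiblePattern EvenFront Transfers fronts Bad BadFor HasStuffle part1 part2)

/-- for all `k`-tuples of primes `p_i ≤ X` but `M X ^ (k - η)`: no tuple `s` within `n_i ^ θ` of `G_i n_i` in the cone
`T ≤ s_i ≤ κ T`, `T ≥ 1`, has the property `E (C ^ T)`, for the orders `n_i` of all subgroups of `F_{p_i}^*` which contain an
integer `a_i`, `2 ≤ a_i ≤ X ^ c` -/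
def NoneNearOrders {k : ℕ} (G : Fin k → ℕ → ℝ) (θ c η : ℝ) (κ : ℕ) (C : ℝ) (E : ℝ → (Fin k → ℕ) → Prop) : Prop :=
  ∃ M : ℝ, ∀ X : ℕ, 1 ≤ X →
    (({p : Fin k → ℕ | (∀ i, (p i).Prime ∧ p i ≤ X) ∧
      ¬ ∀ n : Fin k → ℕ, (∀ i, SubOrder ((X : ℝ) ^ c) (p i) (n i)) → ∀ (s : Fin k → ℕ) (T : ℕ), 1 ≤ T →
        (∀ i, T ≤ s i ∧ s i ≤ κ * T) → (∀ i, |(s i : ℝ) - G i (n i)| ≤ (n i : ℝ) ^ θ) → ¬ E (C ^ T) s}.ncard : ℕ) : ℝ) ≤
      M * (X : ℝ) ^ ((k : ℝ) - η)

theorem badFor_mono {k r : ℕ} (w : Fin r → List (Letter k)) (D : ℕ)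
    (G : ∀ (A : Type) [CommRing A] [Algebra ℚ A], (List ℕ → A) → Prop) (H H' : ℝ) (s : Fin k → ℕ) (h : H ≤ H')
    (hs : BadFor w D G H s) : BadFor w D G H' s := by
  obtain ⟨A, i1, i2, Z, h1, h2, P, h3, h4, h5⟩ := hs
  exact ⟨A, i1, i2, Z, h1, h2, P, h3, fun m => (h4 m).trans h, h5⟩

/-- **Theorem.** Let `k ≥ 1`, let `G_1, …, G_k` have steps `≥ a > 0` and growth at most `v ^ d`, let `θ ≥ 0`,
`β = d (k - 1) + k θ < k`, `0 ≤ c < 1`, `η < (1 - c) (k - β) / 2`. For all admissible patterns `w_1, …, w_r` in `k` variables and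
all `D`, `κ`, `C`: (1) for all `k`-tuples of primes `p_i ≤ X` but `M X ^ (k - η)`, for the orders `n_i` of ALL subgroups of
`F_{p_i}^*` which contain an integer `a_i`, `2 ≤ a_i ≤ X ^ c`, no tuple `s` with `|s_i - G_i n_i| ≤ n_i ^ θ` and
`T ≤ s_i ≤ κ T`, `T ≥ 1`, is bad, for `D` and `H = C ^ T`, for a family `Z` with the stuffle product for which the relations
between the real multiple zeta values of the fronts hold; (2) if the constant first letters of each pattern are equal and even,
the same holds for the families with `Z(2 m) = 0` for all `m ≥ 1`. (3) The order of `a` modulo `p` is the order of such a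
subgroup; `α v ^ d` with `α > 0`, `d ≥ 1` is an example of `G_i`. -/
theorem result :
    (∀ k : ℕ, 1 ≤ k → ∀ (G : Fin k → ℕ → ℝ) (d θ : ℝ), (∀ i, Expanding (G i) d) → 0 ≤ θ →
      d * ((k : ℝ) - 1) + k * θ < k → ∀ c η : ℝ, 0 ≤ c → c < 1 →
      η < (1 - c) * (k - (d * ((k : ℝ) - 1) + k * θ)) / 2 →
      ∀ (r : ℕ) (w : Fin r → List (Letter k)), (∀ i, AdmissiblePattern (w i)) → ∀ (D κ : ℕ) (C : ℝ),
        NoneNearOrders G θ c η κ C (BadFor w D fun _ _ _ Z => Transfers (fronts w) Z) ∧
        ((∀ i, EvenFront (w i)) → NoneNearOrders G θ c η κ C (BadFor w D fun _ _ _ Z => ∀ m, 1 ≤ m → Z [2 * m] = 0))) ∧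
    (∀ (B : ℝ) (p a : ℕ), p.Prime → 2 ≤ a → (a : ℝ) ≤ B → ¬ p ∣ a → SubOrder B p (orderOf (a : ZMod p))) ∧
    ∀ α d : ℝ, 0 < α → 1 ≤ d → Expanding (fun v => α * (v : ℝ) ^ d) d := by
  refine ⟨fun k hk G d θ hG hθ h1 c η hc0 hc1 hη r w hw D κ C => ⟨?_, fun he => ?_⟩,
    fun B p a hp ha haB hpa => subOrder_orderOf hp ha haB hpa, fun α d hα hd => expanding_pow hα hd⟩
  · exact sub_powers hk (fun H H' s => badFor_mono w D _ H H' s) (fun κ => part1 w hw D κ) hG hθ h1 hc0 hc1 hη κ C
  · exact sub_powers hk (fun H H' s => badFor_mono w D _ H H' s) (fun κ => part2 w hw he D κ) hG hθ h1 hc0 hc1 hη κ C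

end Pool.Agent.Results.MP_03df5c_nt.SubgroupOrders
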