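import Pool.Agent.T9h86.MZ.Orb
import Pool.Agent.Results.MP_03df5c_nt.AlmostAllArguments

/-!
# MP_03df5c_nt: relations between real multiple zeta values with arguments near the members of orbits of Euler's function hold
# `p`-adically

A pattern in `k` variables is a nonempty list of letters `b + u_1 s_1 + ... + u_k s_k`; at a tuple `s` of natural numbers
it gives an index. A family `Z` is a function from the indices to a commutative `ℚ`-algebra with the stuffle product, for
example the `p`-adic multiple zeta values for a prime `p`. The tuple `s` is bad for `Z` (and `D`, `H`) if a polynomial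
relation of degree at most `D` with integer coefficients at most `H` between the real multiple zeta values of the patterns at
`s` fails for `Z`.

Let `f_1, …, f_k` be functions like `m`, `φ(m)`, `σ(m)` (class `LM`), let `φ_j` be the `j`-th iterate of Euler's function, let
`G_1, …, G_k` be real sequences with steps bounded below by a positive constant and growth at most `v^d`, `θ ≥ 0`,
`d (k - 1) + k θ < k`. For almost all `m ∈ ℕ^k` (all but `o(N^k)` of the `m ∈ [1, N]^k`), for ALL `j_1, …, j_k ≤ J`, with
`n_i = f_i(φ_{j_i}(m_i))`: NO tuple `s` of natural numbers with `|s_i - G_i n_i| ≤ n_i^θ` and `T ≤ s_i ≤ κ T` is bad for `D` and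
`H = C ^ T`, for any family with `Z(2 m) = 0`, `m ≥ 1` (so for all primes `p` at once), if the constant first letters of each
pattern are equal and even, and, for arbitrary admissible patterns, for any family for which the relations between the real
multiple zeta values of the fronts hold.

The starting theorem `AlmostAllArguments` of this page (helper734) bounds the number of the bad tuples in `[N, κ N] ^ k` by
`K N ^ (k - 1)`; for the iterates of Euler's function this bound alone does not suffice, as their values are a thin set (the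
values of `φ` have density `0`, and the number of the `m` with a given value of `φ` can be large); the starting theorem
`MultiplicativeValues` is for the values of `f_i`, `CarmichaelMultiples` for the multiples of the Carmichael function. The case
`k = 1` of the tool (`Pool.Agent.N760.IT`, uniform in the set of the bad numbers) is from helper760; here it is extended to
tuples of orbits, by induction on `k` with a slicing argument in dyadic boxes.
-/

set_option autoImplicit false

namespace Pool.Agent.Results.MP_03df5c_nt.TotientOrbits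

open Pool.Agent.N733.TG (LM Expanding expanding_pow)
open Pool.Agent.T9h86.MZ (orb_powers)
open Pool.Agent.Results.MP_03df5c_nt.AlmostAllArguments
  (Letter AdmissiblePattern EvenFront Transfers fronts Bad BadFor HasStuffle part1 part2)

/-- for all but `ε N ^ k` of the `m ∈ [1, N] ^ k`, `N ≥ N₀`: no tuple `s` within `n_i ^ θ` of `G_i n_i` in the cone
`T ≤ s_i ≤ κ T`, `T ≥ 1`, has the property `E (C ^ T)`, for all `n_i = f_i (φ_{j_i} (m_i))`, `j_i ≤ J`, where `φ_j` is the `j`-th
iterate of Euler's function -/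
def NoneNearOrbits {k : ℕ} (f : Fin k → ℕ → ℕ) (G : Fin k → ℕ → ℝ) (θ : ℝ) (κ : ℕ) (C : ℝ) (E : ℝ → (Fin k → ℕ) → Prop) :
    Prop :=
  ∀ (J : ℕ) (ε : ℝ), 0 < ε → ∃ N₀ : ℕ, ∀ N : ℕ, N₀ ≤ N →
    (({m : Fin k → ℕ | (∀ i, 1 ≤ m i ∧ m i ≤ N) ∧
      ¬ ∀ j : Fin k → ℕ, (∀ i, j i ≤ J) → ∀ (s : Fin k → ℕ) (T : ℕ), 1 ≤ T →
        (∀ i, T ≤ s i ∧ s i ≤ κ * T) →
        (∀ i, |(s i : ℝ) - G i (f i (Nat.totient^[j i] (m i)))| ≤ ((f i (Nat.totient^[j i] (m i)) : ℕ) : ℝ) ^ θ) →
        ¬ E (C ^ T) s}.ncard : ℕ) : ℝ) ≤ ε * (N : ℝ) ^ k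

theorem badFor_mono {k r : ℕ} (w : Fin r → List (Letter k)) (D : ℕ)
    (G : ∀ (A : Type) [CommRing A] [Algebra ℚ A], (List ℕ → A) → Prop) (H H' : ℝ) (s : Fin k → ℕ) (h : H ≤ H')
    (hs : BadFor w D G H s) : BadFor w D G H' s := by
  obtain ⟨A, i1, i2, Z, h1, h2, P, h3, h4, h5⟩ := hs
  exact ⟨A, i1, i2, Z, h1, h2, P, h3, fun m => (h4 m).trans h, h5⟩

/-- **Theorem.** Let `k ≥ 1`, let `f_1, …, f_k` be in the class `LM`, let `G_1, …, G_k` have steps `≥ a > 0` and growth at most
`v ^ d`, let `θ ≥ 0`, `d (k - 1) + k θ < k`. For all admissible patterns `w_1, …, w_r` in `k` variables and all `D`, `κ`, `C`, `J`: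
(1) for almost all `m ∈ ℕ ^ k`, for all `j_1, …, j_k ≤ J` and `n_i = f_i (φ_{j_i} (m_i))`, no tuple `s` with
`|s_i - G_i n_i| ≤ n_i ^ θ` and `T ≤ s_i ≤ κ T`, `T ≥ 1`, is bad, for `D` and `H = C ^ T`, for a family `Z` with the stuffle
product for which the relations between the real multiple zeta values of the fronts hold; (2) if the constant first letters of
each pattern are equal and even, the same holds for the families with `Z(2 m) = 0` for all `m ≥ 1`. (3) `m`, `φ(m)` and the
sum of the divisors of `m` are in the class `LM`, and `α v ^ d` with `α > 0`, `d ≥ 1` is an example of `G_i`. -/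
theorem result :
    (∀ k : ℕ, 1 ≤ k → ∀ (f : Fin k → ℕ → ℕ) (G : Fin k → ℕ → ℝ) (d θ : ℝ), (∀ i, LM (f i)) → (∀ i, Expanding (G i) d) →
      0 ≤ θ → d * ((k : ℝ) - 1) + k * θ < k →
      ∀ (r : ℕ) (w : Fin r → List (Letter k)), (∀ i, AdmissiblePattern (w i)) → ∀ (D κ : ℕ) (C : ℝ),
        NoneNearOrbits f G θ κ C (BadFor w D fun _ _ _ Z => Transfers (fronts w) Z) ∧
        ((∀ i, EvenFront (w i)) → NoneNearOrbits f G θ κ C (BadFor w D fun _ _ _ Z => ∀ m, 1 ≤ m → Z [2 * m] = 0))) ∧
    (LM (fun m => m) ∧ LM Nat.totient ∧ LM (fun m => ∑ d ∈ m.divisors, d)) ∧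
    ∀ α d : ℝ, 0 < α → 1 ≤ d → Expanding (fun v => α * (v : ℝ) ^ d) d := by
  refine ⟨fun k hk f G d θ hf hG hθ h1 r w hw D κ C => ⟨fun J ε hε => ?_, fun he J ε hε => ?_⟩, ?_,
    fun α d hα hd => expanding_pow hα hd⟩
  · exact orb_powers hk (fun H H' s => badFor_mono w D _ H H' s) (fun κ => part1 w hw D κ) hf hG hθ h1 κ C J ε hε
  · exact orb_powers hk (fun H H' s => badFor_mono w D _ H H' s) (fun κ => part2 w hw he D κ) hf hG hθ h1 κ C J ε hε
  · exact ⟨Pool.Agent.N760.IT.lm_id, Pool.Agent.N733.TG.lm_totient, Pool.Agent.N733.TG.lm_sigma⟩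

end Pool.Agent.Results.MP_03df5c_nt.TotientOrbits
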